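import Pool.Agent.U280.SM.A

set_option autoImplicit false

open MeasureTheory Set Filter Topology Real
open scoped ENNReal

namespace Pool.Agent.U280.SM

open LTd Pool.H632.LTD

variable {d : ℕ}

/-- The bound for the sum over orthonormal families, for one potential. -/
def FB (V : (Fin d → ℝ) → ℝ) (L : ℝ) : Prop :=
  ∀ (N : ℕ) (u : Fin N → (Fin d → ℝ) → ℂ) (g : Fin N → Fin d → (Fin d → ℝ) → ℂ),
    (∀ n, WGradC (u n) (g n)) →
    (∀ n m, ∫ x, (starRingEnd ℂ) (u n x) * u m x = if n = m then 1 else 0) →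
    -(∑ n, ((∫ x, ∑ k, ‖g n k x‖ ^ 2) + ∫ x, V x * ‖u n x‖ ^ 2)) ≤
      L * ∫ x, (max (-V x) 0) ^ (1 + (d:ℝ) / 2)

/-- The sum of the absolute values of the negative min-max values. -/
theorem bound_of_FB {L : ℝ} (V : (Fin d → ℝ) → ℝ) (hV : FB V L) (N : ℕ) :
    ∑ n ∈ Finset.range N, max (-minMax V n) 0 ≤
      L * ∫ x, (max (-V x) 0) ^ (1 + (d:ℝ) / 2) := by
  classical
  set J : Finset ℕ := (Finset.range N).filter fun n => minMax V n < 0 with hJ
  refine le_of_forall_pos_le_add fun ε hε => ?_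
  set δ : ℝ := ε / (N + 1) with hδ
  have hδ0 : 0 < δ := by positivity
  have hex : ∀ n ∈ J, ∃ lam, lam < minMax V n + δ ∧
      ∃ W : Submodule ℂ (Lp ℂ 2 (volume : Measure (Fin d → ℝ))),
      Module.finrank ℂ W = n + 1 ∧ ∀ u ∈ W, ∃ g : Fin d → (Fin d → ℝ) → ℂ, WGradC u g ∧
      (∫ x, ∑ k, ‖g k x‖ ^ 2) + ∫ x, V x * ‖u x‖ ^ 2 ≤ lam * ∫ x, ‖u x‖ ^ 2 := by
    intro n hn
    have hneg : minMax V n < 0 := (Finset.mem_filter.1 hn).2
    have hne : {lam : ℝ | ∃ W : Submodule ℂ (Lp ℂ 2 (volume : Measure (Fin d → ℝ))),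
        Module.finrank ℂ W = n + 1 ∧ ∀ u ∈ W, ∃ g : Fin d → (Fin d → ℝ) → ℂ, WGradC u g ∧
        (∫ x, ∑ k, ‖g k x‖ ^ 2) + ∫ x, V x * ‖u x‖ ^ 2 ≤ lam * ∫ x, ‖u x‖ ^ 2}.Nonempty := by
      by_contra hemp
      rw [not_nonempty_iff_eq_empty] at hemp
      rw [minMax, hemp, Real.sInf_empty] at hneg
      exact lt_irrefl _ hneg
    obtain ⟨lam, hlam, hlt⟩ := exists_lt_of_csInf_lt hne
      (show sInf _ < minMax V n + δ by rw [← minMax]; linarith)
    exact ⟨lam, hlt, hlam⟩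
  choose! lam hlam W hWf hW using hex
  obtain ⟨u, huW, huo⟩ := exists_orthonormal J W hWf N
  have hlt : ∀ n ∈ J, n < N := fun n hn => Finset.mem_range.1 (Finset.mem_filter.1 hn).1
  have hg : ∀ n ∈ J, ∃ g : Fin d → (Fin d → ℝ) → ℂ, WGradC (u n) g ∧
      (∫ x, ∑ k, ‖g k x‖ ^ 2) + ∫ x, V x * ‖u n x‖ ^ 2 ≤ lam n * ∫ x, ‖u n x‖ ^ 2 :=
    fun n hn => hW n hn _ (huW n hn (hlt n hn))
  choose! g hgS hgQ using hg
  have hunit : ∀ n ∈ J, ∫ x, ‖u n x‖ ^ 2 = 1 := by
    intro n hn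
    have h1 := huo n hn n hn (hlt n hn) (hlt n hn)
    rw [if_pos rfl] at h1
    exact lp_unit h1
  set e := J.equivFin with he
  have hfam := hV J.card (fun i : Fin J.card => (u (e.symm i) : (Fin d → ℝ) → ℂ))
    (fun i => g (e.symm i))
    (fun i => hgS _ (e.symm i).2) (by
      intro i j
      rw [← lp_inner, huo _ (e.symm i).2 _ (e.symm j).2 (hlt _ (e.symm i).2)
        (hlt _ (e.symm j).2)]
      simp only [Subtype.val_inj, EmbeddingLike.apply_eq_iff_eq])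
  have hsumJ : ∑ i : Fin J.card, ((∫ x, ∑ k, ‖g (e.symm i) k x‖ ^ 2) +
      ∫ x, V x * ‖u (e.symm i) x‖ ^ 2) =
      ∑ n ∈ J, ((∫ x, ∑ k, ‖g n k x‖ ^ 2) + ∫ x, V x * ‖u n x‖ ^ 2) := by
    rw [← Finset.sum_coe_sort J]
    exact Equiv.sum_comp e.symm
      (fun n : J => (∫ x, ∑ k, ‖g n k x‖ ^ 2) + ∫ x, V x * ‖u n x‖ ^ 2)
  rw [hsumJ] at hfam
  have h1 : ∑ n ∈ Finset.range N, max (-minMax V n) 0 = ∑ n ∈ J, -minMax V n := by
    rw [hJ, Finset.sum_filter]
    refine Finset.sum_congr rfl fun n _ => ?_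
    by_cases hn : minMax V n < 0
    · rw [if_pos hn, max_eq_left (by linarith)]
    · rw [if_neg hn, max_eq_right (by linarith)]
  rw [h1]
  have h2 : ∑ n ∈ J, ((∫ x, ∑ k, ‖g n k x‖ ^ 2) + ∫ x, V x * ‖u n x‖ ^ 2) ≤
      ∑ n ∈ J, (minMax V n + δ) := by
    refine Finset.sum_le_sum fun n hn => ?_
    have h3 := hgQ n hn
    rw [hunit n hn, mul_one] at h3
    exact h3.trans (hlam n hn).le
  have hcard : (J.card : ℝ) ≤ N := by
    have : J.card ≤ (Finset.range N).card := Finset.card_filter_le _ _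
    rw [Finset.card_range] at this
    exact_mod_cast this
  have h2' : ∑ n ∈ J, (minMax V n + δ) = (∑ n ∈ J, minMax V n) + (J.card : ℝ) * δ := by
    rw [Finset.sum_add_distrib, Finset.sum_const, nsmul_eq_mul]
  rw [h2'] at h2
  rw [Finset.sum_neg_distrib]
  have h4 : (J.card : ℝ) * δ ≤ ε := by
    calc (J.card : ℝ) * δ ≤ N * δ := mul_le_mul_of_nonneg_right hcard hδ0.le
      _ ≤ (N + 1) * δ := mul_le_mul_of_nonneg_right (by linarith) hδ0.le
      _ = ε := by rw [hδ]; field_simp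
  linarith

/-- The moments of order `γ ≥ 1` for a potential with the sum bound for all its shifts. -/
theorem moment_of_FB (hd : 1 ≤ d) {γ : ℝ} (hγ : 1 ≤ γ) (V : (Fin d → ℝ) → ℝ)
    (hV : MemLp V (ENNReal.ofReal (γ + (d:ℝ) / 2)))
    (hone : γ = 1 → FB V (Lcl 1 d)) (hsh : ∀ τ : ℝ, 0 < τ → FB (sh V τ) (Lcl 1 d)) (N : ℕ) :
    ∑ n ∈ Finset.range N, (max (-minMax V n) 0) ^ γ ≤
      Lcl γ d * ∫ x, (max (-V x) 0) ^ (γ + (d:ℝ) / 2) := by
  have hL : 0 < Lcl 1 d := by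
    have g1 : 0 < Gamma ((1:ℝ) + 1) := Gamma_pos_of_pos (by norm_num)
    have g2 : 0 < Gamma ((1:ℝ) + 1 + (d:ℝ) / 2) := Gamma_pos_of_pos (by positivity)
    unfold Lcl
    positivity
  rcases hγ.eq_or_lt with rfl | hγ1
  · simp only [Real.rpow_one]
    exact bound_of_FB V (hone rfl) N
  · set E : ℕ → ℝ := fun n => max (-minMax V n) 0 with hE
    have hE0 : ∀ n, 0 ≤ E n := fun n => le_max_right _ _
    have hx : 0 < γ - 1 := by linarith
    have hy : (1:ℝ) < 2 + (d:ℝ) / 2 := by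
      have : (0:ℝ) ≤ d := Nat.cast_nonneg d
      linarith
    set q : ℝ := 1 + (d:ℝ) / 2 with hq
    have hq0 : 0 < q := by positivity
    -- pointwise in τ
    have h1 : ∀ τ ∈ Ioi (0:ℝ), ENNReal.ofReal (τ ^ (γ - 1 - 1) * ∑ n ∈ Finset.range N,
        max (E n - τ) 0) ≤ ENNReal.ofReal (Lcl 1 d) * ∫⁻ x,
          ENNReal.ofReal (τ ^ (γ - 1 - 1) * max (max (-V x) 0 - τ) 0 ^ q) := by
      intro τ hτ
      have hτ0 : 0 < τ := hτ
      have hadm := sh_adm hd hγ hV hτ0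
      have h2 := bound_of_FB _ (hsh τ hτ0) N
      have h3 : ∑ n ∈ Finset.range N, max (E n - τ) 0 ≤
          ∑ n ∈ Finset.range N, max (-minMax (sh V τ) n) 0 :=
        Finset.sum_le_sum fun n _ => minMax_shift hd hγ hV hτ0 n
      have hneg := hadm.neg
      simp only [sh_neg] at h2 hneg
      have h4 : ∀ x, max (-V x - τ) 0 = max (max (-V x) 0 - τ) 0 := by
        intro x
        rcases le_total (-V x) 0 with h | h
        · rw [max_eq_right h, max_eq_right (by linarith), max_eq_right (by linarith)]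
        · rw [max_eq_left h]
      simp only [h4] at h2 hneg
      have hτp : 0 ≤ τ ^ (γ - 1 - 1) := by positivity
      have h5 : τ ^ (γ - 1 - 1) * ∑ n ∈ Finset.range N, max (E n - τ) 0 ≤
          Lcl 1 d * ∫ x, τ ^ (γ - 1 - 1) * max (max (-V x) 0 - τ) 0 ^ q := by
        rw [integral_const_mul]
        calc _ ≤ τ ^ (γ - 1 - 1) * (Lcl 1 d * ∫ x, max (max (-V x) 0 - τ) 0 ^ q) :=
              mul_le_mul_of_nonneg_left (h3.trans h2) hτp
          _ = _ := by ring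
      refine (ENNReal.ofReal_le_ofReal h5).trans ?_
      rw [ENNReal.ofReal_mul hL.le, ofReal_integral_eq_lintegral_ofReal (hneg.const_mul _)
        (Eventually.of_forall fun x => by positivity)]
    have h2 : ∫⁻ τ in Ioi (0:ℝ), ENNReal.ofReal (τ ^ (γ - 1 - 1) * ∑ n ∈ Finset.range N,
        max (E n - τ) 0) ≤ ∫⁻ τ in Ioi (0:ℝ), ENNReal.ofReal (Lcl 1 d) * ∫⁻ x,
          ENNReal.ofReal (τ ^ (γ - 1 - 1) * max (max (-V x) 0 - τ) 0 ^ q) :=
      setLIntegral_mono_ae' measurableSet_Ioi (Eventually.of_forall h1)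
    -- left side
    have hleft : ∫⁻ τ in Ioi (0:ℝ), ENNReal.ofReal (τ ^ (γ - 1 - 1) * ∑ n ∈ Finset.range N,
        max (E n - τ) 0) = ENNReal.ofReal (∑ n ∈ Finset.range N,
          Gamma (γ - 1) * Gamma 2 / Gamma (γ - 1 + 2) * E n ^ γ) := by
      have e1 : ∀ n, IntegrableOn (fun τ : ℝ => τ ^ (γ - 1 - 1) * max (E n - τ) 0) (Ioi 0) ∧
          ∫ τ in Ioi (0:ℝ), τ ^ (γ - 1 - 1) * max (E n - τ) 0 =
            Gamma (γ - 1) * Gamma 2 / Gamma (γ - 1 + 2) * E n ^ γ := by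
        intro n
        have := Pool.H632.LTD.beta_int hx (by norm_num : (1:ℝ) < 2) (hE0 n)
        have e2 : (2:ℝ) - 1 = 1 := by norm_num
        have e3 : γ - 1 + 2 - 1 = γ := by ring
        rw [e2, e3] at this
        simpa only [Real.rpow_one] using this
      have e4 : ∫ τ in Ioi (0:ℝ), τ ^ (γ - 1 - 1) * ∑ n ∈ Finset.range N, max (E n - τ) 0 =
          ∑ n ∈ Finset.range N, Gamma (γ - 1) * Gamma 2 / Gamma (γ - 1 + 2) * E n ^ γ := by
        simp only [Finset.mul_sum]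
        rw [integral_finsetSum _ fun n _ => (e1 n).1]
        exact Finset.sum_congr rfl fun n _ => (e1 n).2
      have e5 : IntegrableOn (fun τ : ℝ => τ ^ (γ - 1 - 1) *
          ∑ n ∈ Finset.range N, max (E n - τ) 0) (Ioi 0) := by
        simp only [Finset.mul_sum]
        exact integrable_finsetSum _ fun n _ => (e1 n).1
      rw [← e4, ofReal_integral_eq_lintegral_ofReal e5]
      filter_upwards [ae_restrict_mem measurableSet_Ioi] with τ hτ
      have : 0 < τ := hτ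
      exact mul_nonneg (by positivity) (Finset.sum_nonneg fun n _ => le_max_right _ _)
    -- right side
    have hVm : AEMeasurable V volume := hV.1.aemeasurable
    have hP : Integrable (fun x => max (-V x) 0 ^ (γ + (d:ℝ) / 2)) volume := by
      have h3 := int_pow hγ hV
      have hm : AEStronglyMeasurable (fun x => max (-V x) 0 ^ (γ + (d:ℝ) / 2)) volume :=
        ((hVm.neg.max aemeasurable_const).pow_const _).aestronglyMeasurable
      refine h3.mono' hm (Eventually.of_forall fun x => ?_)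
      have h0 : 0 ≤ max (-V x) 0 := le_max_right _ _
      rw [Real.norm_of_nonneg (Real.rpow_nonneg h0 _)]
      exact Real.rpow_le_rpow h0 (max_le (neg_le_abs _) (abs_nonneg _)) (by positivity)
    set B : ℝ := Gamma (γ - 1) * Gamma (2 + (d:ℝ) / 2) / Gamma (γ - 1 + (2 + (d:ℝ) / 2)) with hB
    have hB0 : 0 < B := by
      have g1 : 0 < Gamma (γ - 1) := Gamma_pos_of_pos hx
      have g2 : 0 < Gamma (2 + (d:ℝ) / 2) := Gamma_pos_of_pos (by positivity)
      have g3 : 0 < Gamma (γ - 1 + (2 + (d:ℝ) / 2)) := Gamma_pos_of_pos (by positivity)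
      positivity
    have hright : ∫⁻ τ in Ioi (0:ℝ), ENNReal.ofReal (Lcl 1 d) * ∫⁻ x,
          ENNReal.ofReal (τ ^ (γ - 1 - 1) * max (max (-V x) 0 - τ) 0 ^ q) =
        ENNReal.ofReal (Lcl 1 d * (B * ∫ x, max (-V x) 0 ^ (γ + (d:ℝ) / 2))) := by
      have hjm : AEMeasurable (fun z : ℝ × (Fin d → ℝ) =>
          ENNReal.ofReal (z.1 ^ (γ - 1 - 1) * max (max (-V z.2) 0 - z.1) 0 ^ q))
          ((volume.restrict (Ioi (0:ℝ))).prod volume) := by
        have m1 : AEMeasurable (fun z : ℝ × (Fin d → ℝ) => V z.2)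
            ((volume.restrict (Ioi (0:ℝ))).prod volume) := hV.1.comp_snd.aemeasurable
        have m2 : AEMeasurable (fun z : ℝ × (Fin d → ℝ) => z.1)
            ((volume.restrict (Ioi (0:ℝ))).prod volume) := measurable_fst.aemeasurable
        exact ((m2.pow_const _).mul ((((m1.neg.max aemeasurable_const).sub m2).max
          aemeasurable_const).pow_const _)).ennreal_ofReal
      rw [lintegral_const_mul' _ _ ENNReal.ofReal_ne_top,
        lintegral_lintegral_swap hjm]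
      have e1 : ∀ x, ∫⁻ τ in Ioi (0:ℝ),
          ENNReal.ofReal (τ ^ (γ - 1 - 1) * max (max (-V x) 0 - τ) 0 ^ q) =
          ENNReal.ofReal (B * max (-V x) 0 ^ (γ + (d:ℝ) / 2)) := by
        intro x
        have := beta_lint hx hy (le_max_right (-V x) 0)
        have e2 : 2 + (d:ℝ) / 2 - 1 = q := by rw [hq]; ring
        have e3 : γ - 1 + (2 + (d:ℝ) / 2) - 1 = γ + (d:ℝ) / 2 := by ring
        rw [e2, e3] at this
        exact this
      simp only [e1]
      rw [← ofReal_integral_eq_lintegral_ofReal (hP.const_mul B)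
        (Eventually.of_forall fun x => by positivity), integral_const_mul,
        ← ENNReal.ofReal_mul hL.le]
    rw [hleft, hright] at h2
    have hI0 : 0 ≤ ∫ x, max (-V x) 0 ^ (γ + (d:ℝ) / 2) := integral_nonneg fun x => by positivity
    have h3 := (ENNReal.ofReal_le_ofReal_iff (by positivity)).1 h2
    rw [← Finset.mul_sum] at h3
    have g1 : 0 < Gamma (γ - 1) := Gamma_pos_of_pos hx
    have g2 : Gamma (γ - 1 + 2) = Gamma (γ + 1) := by congr 1; ring
    have g3 : 0 < Gamma (γ + 1) := Gamma_pos_of_pos (by positivity)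
    have g4 : Gamma ((1:ℝ) + 1 + d / 2) = Gamma (2 + (d:ℝ) / 2) := by congr 1; ring
    have g5 : 0 < Gamma (2 + (d:ℝ) / 2) := Gamma_pos_of_pos (by positivity)
    have g6 : Gamma (γ - 1 + (2 + (d:ℝ) / 2)) = Gamma (γ + 1 + d / 2) := by congr 1; ring
    have g7 : 0 < Gamma (γ + 1 + (d:ℝ) / 2) := Gamma_pos_of_pos (by positivity)
    have g8 : Gamma ((1:ℝ) + 1) = 1 := by
      rw [show (1:ℝ) + 1 = 2 by norm_num]
      exact Real.Gamma_two
    rw [g2, Real.Gamma_two] at h3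
    have h4 : ∑ n ∈ Finset.range N, E n ^ γ ≤ Gamma (γ + 1) / Gamma (γ - 1) *
        (Lcl 1 d * (B * ∫ x, max (-V x) 0 ^ (γ + (d:ℝ) / 2))) := by
      have h5 := mul_le_mul_of_nonneg_left h3 (by positivity : 0 ≤ Gamma (γ + 1) / Gamma (γ - 1))
      refine le_trans (le_of_eq ?_) h5
      field_simp
    refine h4.trans (le_of_eq ?_)
    rw [hB, g6]
    unfold Lcl
    rw [g8, g4]
    have h40 : 0 < (4 * π) ^ ((d:ℝ) / 2) := by positivity
    field_simp

/-- `2 / (d + 2) ω_d / (2π)^d = L^cl_{1,d}`. -/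
lemma lcl_one (hd : 1 ≤ d) : 2 / ((d : ℝ) + 2) *
    ((volume (Metric.ball (0 : EuclideanSpace ℝ (Fin d)) 1)).toReal / (2 * Real.pi) ^ d) =
      Lcl 1 d := by
  have hd0 : (0:ℝ) < d := by exact_mod_cast hd
  rw [volBall d hd]
  unfold Lcl
  have h5 : Gamma ((1:ℝ) + 1) = 1 := by
    rw [show (1:ℝ) + 1 = 2 by norm_num]
    exact Real.Gamma_two
  have h6 : Gamma ((1:ℝ) + 1 + d / 2) = (d / 2 + 1) * Gamma ((d:ℝ) / 2 + 1) := by
    rw [← Real.Gamma_add_one (by positivity)]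
    congr 1
    ring
  have h7 : 0 < Gamma ((d:ℝ) / 2 + 1) := Gamma_pos_of_pos (by positivity)
  rw [h5, h6]
  have h9 : (2 * π) ^ d = (4 * π) ^ ((d:ℝ) / 2) * π ^ ((d:ℝ) / 2) := by
    rw [← Real.mul_rpow (by positivity) (by positivity)]
    rw [show 4 * π * π = (2 * π) ^ (2:ℕ) by ring, ← Real.rpow_natCast,
      ← Real.rpow_natCast, ← Real.rpow_mul (by positivity)]
    congr 1
    push_cast
    ring
  rw [h9]
  have h10 : 0 < (4 * π) ^ ((d:ℝ) / 2) := by positivity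
  have h11 : 0 < π ^ ((d:ℝ) / 2) := by positivity
  field_simp

/-- The sum bound from the inequality for nonnegative potentials. -/
lemma FB_of {L : ℝ} {V : (Fin d → ℝ) → ℝ} (hV : Adm d V)
    (h : ∀ (N : ℕ) (u : Fin N → (Fin d → ℝ) → ℂ) (g : Fin N → Fin d → (Fin d → ℝ) → ℂ),
      (∀ n, WGradC (u n) (g n)) →
      (∀ n m, ∫ x, (starRingEnd ℂ) (u n x) * u m x = if n = m then 1 else 0) →
      Integrable (fun x => max (-V x) 0 * ∑ n, ‖u n x‖ ^ 2) ∧
      ∫ x, max (-V x) 0 * ∑ n, ‖u n x‖ ^ 2 ≤ (∑ n, ∑ k, ∫ x, ‖g n k x‖ ^ 2) +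
        L * ∫ x, (max (-V x) 0) ^ (1 + (d:ℝ) / 2)) : FB V L := by
  intro N u g hs ho
  obtain ⟨hi, hle⟩ := h N u g hs ho
  have hVn : ∀ n, Integrable (fun x => V x * ‖u n x‖ ^ 2) volume :=
    fun n => hV.int _ _ (hs n)
  have hVρ : Integrable (fun x => V x * ∑ n, ‖u n x‖ ^ 2) volume := by
    have := integrable_finsetSum Finset.univ fun n _ => hVn n
    refine this.congr (Eventually.of_forall fun x => ?_)
    simp only [Finset.mul_sum]
  have hsum : ∑ n, ∫ x, V x * ‖u n x‖ ^ 2 = ∫ x, V x * ∑ n, ‖u n x‖ ^ 2 := by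
    rw [← integral_finsetSum _ fun n _ => hVn n]
    congr 1
    funext x
    rw [Finset.mul_sum]
  have hkin : ∀ n, ∫ x, ∑ k, ‖g n k x‖ ^ 2 = ∑ k, ∫ x, ‖g n k x‖ ^ 2 := by
    intro n
    rw [integral_finsetSum _ fun k _ => int_sq ((hs n).g2 k)]
  rw [Finset.sum_add_distrib, hsum]
  simp only [hkin]
  have hmono : ∫ x, -(V x * ∑ n, ‖u n x‖ ^ 2) ≤ ∫ x, max (-V x) 0 * ∑ n, ‖u n x‖ ^ 2 := by
    refine integral_mono hVρ.neg hi fun x => ?_
    simp only
    rw [← neg_mul]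
    exact mul_le_mul_of_nonneg_right (le_max_left _ _) (Finset.sum_nonneg fun n _ => sq_nonneg _)
  rw [integral_neg] at hmono
  linarith

end Pool.Agent.U280.SM
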