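import Pool.Agent.U280.SM.A

set_option autoImplicit false

open MeasureTheory Set Filter Topology Real
open scoped ENNReal

namespace Pool.Agent.U280.SM

open LTd Pool.H632.LTD

variable {d : ℕ}

/-- The bound for all `γ ≥ 1`. -/
theorem mmP_moment (hd : 1 ≤ d) (P : ((Fin d → ℝ) → ℂ) → Prop) {C : ℝ} (hC : 0 < C)
    (hkin : KinP P (C ^ (1 / (d:ℝ)) * LTd.Kcl d)) {γ : ℝ} (hγ : 1 ≤ γ) (V : (Fin d → ℝ) → ℝ)
    (hV : MemLp V (ENNReal.ofReal (γ + (d:ℝ) / 2))) (N : ℕ) :
    ∑ n ∈ Finset.range N, (max (-mmP P V n) 0) ^ γ ≤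
      C ^ (-(1 / 2) : ℝ) * Lcl γ d * ∫ x, (max (-V x) 0) ^ (γ + (d:ℝ) / 2) := by
  set K : ℝ := C ^ (1 / (d:ℝ)) * LTd.Kcl d with hKdef
  have hKc := Kcl_pos d hd
  have hK : 0 < K := by positivity
  have hLeq : LK K d = C ^ (-(1 / 2) : ℝ) * Lcl 1 d := LK_eq hC d hd
  have hCp : 0 < C ^ (-(1 / 2) : ℝ) := Real.rpow_pos_of_pos hC _
  rcases hγ.eq_or_lt with rfl | hγ1
  · simp only [Real.rpow_one]
    rw [← hLeq]
    exact mmP_bound hK d hd P hkin V (adm_one hd hV) N
  · set E : ℕ → ℝ := fun n => max (-mmP P V n) 0 with hE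
    have hE0 : ∀ n, 0 ≤ E n := fun n => le_max_right _ _
    have hL := LK_pos hK d hd
    have hx : 0 < γ - 1 := by linarith
    have hy : (1:ℝ) < 2 + (d:ℝ) / 2 := by
      have : (0:ℝ) ≤ d := Nat.cast_nonneg d
      linarith
    set q : ℝ := 1 + (d:ℝ) / 2 with hq
    have hq0 : 0 < q := by positivity
    -- pointwise in τ
    have h1 : ∀ τ ∈ Ioi (0:ℝ), ENNReal.ofReal (τ ^ (γ - 1 - 1) * ∑ n ∈ Finset.range N,
        max (E n - τ) 0) ≤ ENNReal.ofReal (LK K d) * ∫⁻ x,
          ENNReal.ofReal (τ ^ (γ - 1 - 1) * max (max (-V x) 0 - τ) 0 ^ q) := by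
      intro τ hτ
      have hτ0 : 0 < τ := hτ
      have hadm := sh_adm hd hγ hV hτ0
      have h2 := mmP_bound hK d hd P hkin _ hadm N
      have h3 : ∑ n ∈ Finset.range N, max (E n - τ) 0 ≤
          ∑ n ∈ Finset.range N, max (-mmP P (sh V τ) n) 0 :=
        Finset.sum_le_sum fun n _ => mmP_shift hd P hγ hV hτ0 n
      have hneg := hadm.neg
      simp only [sh_neg] at h2 hneg
      have h4 : ∀ x, max (-V x - τ) 0 = max (max (-V x) 0 - τ) 0 := by
        intro x
        rcases le_total (-V x) 0 with h | h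
        · rw [max_eq_right h, max_eq_right (by linarith), max_eq_right (by linarith)]
        · rw [max_eq_left h]
      simp only [h4] at h2 hneg
      have hτp : 0 ≤ τ ^ (γ - 1 - 1) := by positivity
      have h5 : τ ^ (γ - 1 - 1) * ∑ n ∈ Finset.range N, max (E n - τ) 0 ≤
          LK K d * ∫ x, τ ^ (γ - 1 - 1) * max (max (-V x) 0 - τ) 0 ^ q := by
        rw [integral_const_mul]
        calc _ ≤ τ ^ (γ - 1 - 1) * (LK K d * ∫ x, max (max (-V x) 0 - τ) 0 ^ q) :=
              mul_le_mul_of_nonneg_left (h3.trans h2) hτp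
          _ = _ := by ring
      refine (ENNReal.ofReal_le_ofReal h5).trans ?_
      rw [ENNReal.ofReal_mul hL.le, ofReal_integral_eq_lintegral_ofReal (hneg.const_mul _)
        (Eventually.of_forall fun x => by positivity)]
    have h2 : ∫⁻ τ in Ioi (0:ℝ), ENNReal.ofReal (τ ^ (γ - 1 - 1) * ∑ n ∈ Finset.range N,
        max (E n - τ) 0) ≤ ∫⁻ τ in Ioi (0:ℝ), ENNReal.ofReal (LK K d) * ∫⁻ x,
          ENNReal.ofReal (τ ^ (γ - 1 - 1) * max (max (-V x) 0 - τ) 0 ^ q) :=
      setLIntegral_mono_ae' measurableSet_Ioi (Eventually.of_forall h1)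
    -- left side
    have hleft : ∫⁻ τ in Ioi (0:ℝ), ENNReal.ofReal (τ ^ (γ - 1 - 1) * ∑ n ∈ Finset.range N,
        max (E n - τ) 0) = ENNReal.ofReal (∑ n ∈ Finset.range N,
          Gamma (γ - 1) * Gamma 2 / Gamma (γ - 1 + 2) * E n ^ γ) := by
      have e1 : ∀ n, IntegrableOn (fun τ : ℝ => τ ^ (γ - 1 - 1) * max (E n - τ) 0) (Ioi 0) ∧
          ∫ τ in Ioi (0:ℝ), τ ^ (γ - 1 - 1) * max (E n - τ) 0 =
            Gamma (γ - 1) * Gamma 2 / Gamma (γ - 1 + 2) * E n ^ γ := by
        intro n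
        have := Pool.H632.LTD.beta_int hx (by norm_num : (1:ℝ) < 2) (hE0 n)
        have e2 : (2:ℝ) - 1 = 1 := by norm_num
        have e3 : γ - 1 + 2 - 1 = γ := by ring
        rw [e2, e3] at this
        simpa only [Real.rpow_one] using this
      have e4 : ∫ τ in Ioi (0:ℝ), τ ^ (γ - 1 - 1) * ∑ n ∈ Finset.range N, max (E n - τ) 0 =
          ∑ n ∈ Finset.range N, Gamma (γ - 1) * Gamma 2 / Gamma (γ - 1 + 2) * E n ^ γ := by
        simp only [Finset.mul_sum]
        rw [integral_finsetSum _ fun n _ => (e1 n).1]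
        exact Finset.sum_congr rfl fun n _ => (e1 n).2
      have e5 : IntegrableOn (fun τ : ℝ => τ ^ (γ - 1 - 1) *
          ∑ n ∈ Finset.range N, max (E n - τ) 0) (Ioi 0) := by
        simp only [Finset.mul_sum]
        exact integrable_finsetSum _ fun n _ => (e1 n).1
      rw [← e4, ofReal_integral_eq_lintegral_ofReal e5]
      filter_upwards [ae_restrict_mem measurableSet_Ioi] with τ hτ
      have : 0 < τ := hτ
      exact mul_nonneg (by positivity) (Finset.sum_nonneg fun n _ => le_max_right _ _)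
    -- right side
    have hVm : AEMeasurable V volume := hV.1.aemeasurable
    have hP : Integrable (fun x => max (-V x) 0 ^ (γ + (d:ℝ) / 2)) volume := by
      have h3 := int_pow hγ hV
      have hm : AEStronglyMeasurable (fun x => max (-V x) 0 ^ (γ + (d:ℝ) / 2)) volume :=
        ((hVm.neg.max aemeasurable_const).pow_const _).aestronglyMeasurable
      refine h3.mono' hm (Eventually.of_forall fun x => ?_)
      have h0 : 0 ≤ max (-V x) 0 := le_max_right _ _
      rw [Real.norm_of_nonneg (Real.rpow_nonneg h0 _)]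
      exact Real.rpow_le_rpow h0 (max_le (neg_le_abs _) (abs_nonneg _)) (by positivity)
    set B : ℝ := Gamma (γ - 1) * Gamma (2 + (d:ℝ) / 2) / Gamma (γ - 1 + (2 + (d:ℝ) / 2)) with hB
    have hB0 : 0 < B := by
      have g1 : 0 < Gamma (γ - 1) := Gamma_pos_of_pos hx
      have g2 : 0 < Gamma (2 + (d:ℝ) / 2) := Gamma_pos_of_pos (by positivity)
      have g3 : 0 < Gamma (γ - 1 + (2 + (d:ℝ) / 2)) := Gamma_pos_of_pos (by positivity)
      positivity
    have hright : ∫⁻ τ in Ioi (0:ℝ), ENNReal.ofReal (LK K d) * ∫⁻ x,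
          ENNReal.ofReal (τ ^ (γ - 1 - 1) * max (max (-V x) 0 - τ) 0 ^ q) =
        ENNReal.ofReal (LK K d * (B * ∫ x, max (-V x) 0 ^ (γ + (d:ℝ) / 2))) := by
      have hjm : AEMeasurable (fun z : ℝ × (Fin d → ℝ) =>
          ENNReal.ofReal (z.1 ^ (γ - 1 - 1) * max (max (-V z.2) 0 - z.1) 0 ^ q))
          ((volume.restrict (Ioi (0:ℝ))).prod volume) := by
        have m1 : AEMeasurable (fun z : ℝ × (Fin d → ℝ) => V z.2)
            ((volume.restrict (Ioi (0:ℝ))).prod volume) := hV.1.comp_snd.aemeasurable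
        have m2 : AEMeasurable (fun z : ℝ × (Fin d → ℝ) => z.1)
            ((volume.restrict (Ioi (0:ℝ))).prod volume) := measurable_fst.aemeasurable
        exact ((m2.pow_const _).mul ((((m1.neg.max aemeasurable_const).sub m2).max
          aemeasurable_const).pow_const _)).ennreal_ofReal
      rw [lintegral_const_mul' _ _ ENNReal.ofReal_ne_top,
        lintegral_lintegral_swap hjm]
      have e1 : ∀ x, ∫⁻ τ in Ioi (0:ℝ),
          ENNReal.ofReal (τ ^ (γ - 1 - 1) * max (max (-V x) 0 - τ) 0 ^ q) =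
          ENNReal.ofReal (B * max (-V x) 0 ^ (γ + (d:ℝ) / 2)) := by
        intro x
        have := beta_lint hx hy (le_max_right (-V x) 0)
        have e2 : 2 + (d:ℝ) / 2 - 1 = q := by rw [hq]; ring
        have e3 : γ - 1 + (2 + (d:ℝ) / 2) - 1 = γ + (d:ℝ) / 2 := by ring
        rw [e2, e3] at this
        exact this
      simp only [e1]
      rw [← ofReal_integral_eq_lintegral_ofReal (hP.const_mul B)
        (Eventually.of_forall fun x => by positivity), integral_const_mul,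
        ← ENNReal.ofReal_mul hL.le]
    rw [hleft, hright] at h2
    have hI0 : 0 ≤ ∫ x, max (-V x) 0 ^ (γ + (d:ℝ) / 2) := integral_nonneg fun x => by positivity
    have h3 := (ENNReal.ofReal_le_ofReal_iff (by positivity)).1 h2
    rw [← Finset.mul_sum, hLeq] at h3
    have g1 : 0 < Gamma (γ - 1) := Gamma_pos_of_pos hx
    have g2 : Gamma (γ - 1 + 2) = Gamma (γ + 1) := by congr 1; ring
    have g3 : 0 < Gamma (γ + 1) := Gamma_pos_of_pos (by positivity)
    have g4 : Gamma ((1:ℝ) + 1 + d / 2) = Gamma (2 + (d:ℝ) / 2) := by congr 1; ring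
    have g5 : 0 < Gamma (2 + (d:ℝ) / 2) := Gamma_pos_of_pos (by positivity)
    have g6 : Gamma (γ - 1 + (2 + (d:ℝ) / 2)) = Gamma (γ + 1 + d / 2) := by congr 1; ring
    have g7 : 0 < Gamma (γ + 1 + (d:ℝ) / 2) := Gamma_pos_of_pos (by positivity)
    have g8 : Gamma ((1:ℝ) + 1) = 1 := by
      rw [show (1:ℝ) + 1 = 2 by norm_num]
      exact Real.Gamma_two
    rw [g2, Real.Gamma_two] at h3
    set c : ℝ := C ^ (-(1 / 2) : ℝ) with hc
    have h4 : ∑ n ∈ Finset.range N, E n ^ γ ≤ Gamma (γ + 1) / Gamma (γ - 1) *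
        (c * Lcl 1 d * (B * ∫ x, max (-V x) 0 ^ (γ + (d:ℝ) / 2))) := by
      have h5 := mul_le_mul_of_nonneg_left h3 (by positivity : 0 ≤ Gamma (γ + 1) / Gamma (γ - 1))
      refine le_trans (le_of_eq ?_) h5
      field_simp
    refine h4.trans (le_of_eq ?_)
    rw [hB, g6]
    unfold Lcl
    rw [g8, g4]
    have h40 : 0 < (4 * π) ^ ((d:ℝ) / 2) := by positivity
    field_simp

/-- The min-max values in terms of orthonormal families of trial functions with `P`. -/
noncomputable def mmF (P : ((Fin d → ℝ) → ℂ) → Prop) (V : (Fin d → ℝ) → ℝ) (n : ℕ) : ℝ :=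
  sInf {lam : ℝ | ∃ (u : Fin (n + 1) → (Fin d → ℝ) → ℂ)
    (g : Fin (n + 1) → Fin d → (Fin d → ℝ) → ℂ), (∀ i, WGradC (u i) (g i)) ∧
    (∀ i j, ∫ x, (starRingEnd ℂ) (u i x) * u j x = if i = j then 1 else 0) ∧ (∀ i, P (u i)) ∧
    ∀ c : Fin (n + 1) → ℂ, (∫ x, ∑ k, ‖∑ i, c i * g i k x‖ ^ 2) +
      ∫ x, V x * ‖∑ i, c i * u i x‖ ^ 2 ≤ lam * ∑ i, ‖c i‖ ^ 2}

/-- The two descriptions of the min-max values agree. -/
theorem mmF_eq (P : ((Fin d → ℝ) → ℂ) → Prop)
    (hP1 : ∀ u v : (Fin d → ℝ) → ℂ, u =ᵐ[volume] v → P u → P v)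
    (hP2 : ∀ (N : ℕ) (u : Fin N → (Fin d → ℝ) → ℂ) (c : Fin N → ℂ), (∀ i, P (u i)) →
      P (fun x => ∑ i, c i * u i x))
    (V : (Fin d → ℝ) → ℝ) (n : ℕ) : mmF P V n = mmP P V n := by
  unfold mmF mmP
  congr 1
  ext lam
  constructor
  · rintro ⟨u, g, hu, ho, hPu, hq⟩
    let e : Fin (n + 1) → Lp ℂ 2 (volume : Measure (Fin d → ℝ)) := fun i => (hu i).f2.toLp (u i)
    have hea : ∀ i, (e i : (Fin d → ℝ) → ℂ) =ᵐ[volume] u i := fun i => (hu i).f2.coeFn_toLp
    have heo : Orthonormal ℂ e := by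
      rw [orthonormal_iff_ite]
      intro i j
      rw [lp_inner, ← ho i j]
      refine integral_congr_ae ?_
      filter_upwards [hea i, hea j] with x h1 h2
      rw [h1, h2]
    refine ⟨Submodule.span ℂ (range e), ?_, fun w hw => ?_⟩
    · rw [finrank_span_eq_card heo.linearIndependent, Fintype.card_fin]
    · obtain ⟨c, rfl⟩ := (Submodule.mem_span_range_iff_exists_fun ℂ).1 hw
      have hae : (fun x => ∑ i, c i * u i x) =ᵐ[volume]
          ((∑ i, c i • e i : Lp ℂ 2 _) : (Fin d → ℝ) → ℂ) := by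
        have h2 : ∀ᵐ x, ∀ i, (e i : (Fin d → ℝ) → ℂ) x = u i x := ae_all_iff.2 hea
        filter_upwards [coeFn_sum c e Finset.univ, h2] with x h3 h4
        rw [h3]
        exact Finset.sum_congr rfl fun i _ => by rw [h4 i]
      refine ⟨hP1 _ _ hae (hP2 _ u c hPu), fun k x => ∑ i, c i * g i k x,
        wgrad_congr (wgrad_sum hu c) hae, ?_⟩
      rw [lp_norm_sq, norm_sum_sq heo]
      refine le_trans (le_of_eq ?_) (hq c)
      congr 1
      refine integral_congr_ae ?_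
      filter_upwards [hae] with x hx
      rw [← hx]
  · rintro ⟨W, hW, hW2⟩
    have hfin : FiniteDimensional ℂ W :=
      FiniteDimensional.of_finrank_pos (by rw [hW]; exact Nat.succ_pos n)
    let b : OrthonormalBasis (Fin (n + 1)) ℂ W := (stdOrthonormalBasis ℂ W).reindex (finCongr hW)
    let e : Fin (n + 1) → Lp ℂ 2 (volume : Measure (Fin d → ℝ)) := fun i => (b i : W)
    have heo : Orthonormal ℂ e := by
      rw [orthonormal_iff_ite]
      intro i j
      have := orthonormal_iff_ite.1 b.orthonormal i j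
      rw [← this]
      rfl
    have heW : ∀ i, e i ∈ W := fun i => (b i).2
    have hex : ∀ i, ∃ g : Fin d → (Fin d → ℝ) → ℂ, WGradC (e i : (Fin d → ℝ) → ℂ) g := fun i =>
      (hW2 (e i) (heW i)).2.imp fun g hg => hg.1
    choose g hg using hex
    refine ⟨fun i => (e i : (Fin d → ℝ) → ℂ), g, hg, fun i j => ?_,
      fun i => (hW2 (e i) (heW i)).1, fun c => ?_⟩
    · rw [← lp_inner]
      exact orthonormal_iff_ite.1 heo i j
    · have hvW : (∑ i, c i • e i) ∈ W := W.sum_mem fun i _ => W.smul_mem _ (heW i)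
      obtain ⟨-, G, hG, hq⟩ := hW2 _ hvW
      have hae := coeFn_sum c e Finset.univ
      have hG2 := wgrad_congr (wgrad_sum hg c) hae.symm
      have huni := fun k => wgrad_unique hG hG2 k
      rw [lp_norm_sq, norm_sum_sq heo] at hq
      refine le_trans (le_of_eq ?_) hq
      congr 1
      · refine integral_congr_ae ?_
        have h2 : ∀ᵐ x, ∀ k, G k x = ∑ i, c i * g i k x := ae_all_iff.2 huni
        filter_upwards [h2] with x hx
        exact Finset.sum_congr rfl fun k _ => by rw [hx k]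
      · refine integral_congr_ae ?_
        filter_upwards [hae] with x hx
        rw [hx]

/-- The sector predicate is stable. -/
lemma sector_congr {γ : (Fin d → ℝ) → (Fin d → ℝ)} (hγ : MeasurePreserving γ) (ζ : ℂ)
    (u v : (Fin d → ℝ) → ℂ) (huv : u =ᵐ[volume] v) (hu : ∀ᵐ x, u (γ x) = ζ * u x) :
    ∀ᵐ x, v (γ x) = ζ * v x := by
  have h1 : ∀ᵐ x, u (γ x) = v (γ x) := hγ.quasiMeasurePreserving.ae huv
  filter_upwards [huv, hu, h1] with x h2 h3 h4
  rw [← h4, h3, h2]

lemma sector_sum {γ : (Fin d → ℝ) → (Fin d → ℝ)} (ζ : ℂ) (N : ℕ)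
    (u : Fin N → (Fin d → ℝ) → ℂ) (c : Fin N → ℂ) (hu : ∀ i, ∀ᵐ x, u i (γ x) = ζ * u i x) :
    ∀ᵐ x, (fun x => ∑ i, c i * u i x) (γ x) = ζ * (fun x => ∑ i, c i * u i x) x := by
  filter_upwards [ae_all_iff.2 hu] with x hx
  simp only [hx, Finset.mul_sum]
  exact Finset.sum_congr rfl fun i _ => by ring

end Pool.Agent.U280.SM
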