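import Pool.Agent.H632.LTD4

set_option autoImplicit false

open MeasureTheory Set Filter Topology Real
open scoped ENNReal

namespace Pool.Agent.U280.SM

open LTd Pool.H632.LTD

/-- The dual constant to the constant `K` of the kinetic inequality. -/
noncomputable def LK (K : ℝ) (d : ℕ) : ℝ :=
  2 / ((d:ℝ) + 2) * (((d:ℝ) + 2) / d * K) ^ (-((d:ℝ) / 2))

lemma LK_pos {K : ℝ} (hK : 0 < K) (d : ℕ) (hd : 1 ≤ d) : 0 < LK K d := by
  have h2 : (0:ℝ) < d := by exact_mod_cast hd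
  unfold LK
  positivity

lemma LK_eq {C : ℝ} (hC : 0 < C) (d : ℕ) (hd : 1 ≤ d) :
    LK (C ^ (1 / (d:ℝ)) * LTd.Kcl d) d = C ^ (-(1 / 2) : ℝ) * Lcl 1 d := by
  have hd0 : (0:ℝ) < d := by exact_mod_cast hd
  have hω := volBall_pos d hd
  set ω : ℝ := (volume (Metric.ball (0 : EuclideanSpace ℝ (Fin d)) 1)).toReal with hωd
  have e1 : ((d:ℝ) + 2) / d * (C ^ (1 / (d:ℝ)) * LTd.Kcl d) =
      C ^ (1 / (d:ℝ)) * ((2 * π) ^ 2 / ω ^ ((2:ℝ) / d)) := by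
    unfold LTd.Kcl
    rw [← hωd]
    field_simp
  have e2 : (C ^ (1 / (d:ℝ)) * ((2 * π) ^ 2 / ω ^ ((2:ℝ) / d))) ^ (-((d:ℝ) / 2)) =
      C ^ (-(1 / 2) : ℝ) * (ω / (2 * π) ^ (d:ℝ)) := by
    rw [Real.mul_rpow (by positivity) (by positivity), ← Real.rpow_mul hC.le,
      Real.div_rpow (x := (2 * π) ^ 2) (by positivity) (by positivity), ← Real.rpow_mul hω.le]
    have h1 : 1 / (d:ℝ) * -((d:ℝ) / 2) = -(1 / 2) := by field_simp
    have h2 : (2:ℝ) / d * -((d:ℝ) / 2) = -1 := by field_simp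
    rw [h1, h2]
    have h4 : (((2 * π) ^ 2 : ℝ)) ^ (-((d:ℝ) / 2)) = ((2 * π) ^ (d:ℝ))⁻¹ := by
      rw [← Real.rpow_natCast, ← Real.rpow_mul (by positivity), ← Real.rpow_neg (by positivity)]
      congr 1
      push_cast
      ring
    rw [h4, Real.rpow_neg_one]
    field_simp
  unfold LK
  rw [e1, e2]
  unfold Lcl
  have h5 : Gamma ((1:ℝ) + 1) = 1 := by
    rw [show (1:ℝ) + 1 = 2 by norm_num]
    exact Real.Gamma_two
  have h6 : Gamma ((1:ℝ) + 1 + d / 2) = (d / 2 + 1) * Gamma ((d:ℝ) / 2 + 1) := by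
    rw [← Real.Gamma_add_one (by positivity)]
    congr 1
    ring
  have h7 : 0 < Gamma ((d:ℝ) / 2 + 1) := Gamma_pos_of_pos (by positivity)
  have h8 : ω = π ^ ((d:ℝ) / 2) / Gamma (d / 2 + 1) := volBall d hd
  rw [h5, h6, h8]
  have h9 : (2 * π) ^ (d:ℝ) = (4 * π) ^ ((d:ℝ) / 2) * π ^ ((d:ℝ) / 2) := by
    rw [← Real.mul_rpow (by positivity) (by positivity)]
    rw [show 4 * π * π = (2 * π) ^ (2:ℕ) by ring, ← Real.rpow_natCast,
      ← Real.rpow_mul (by positivity)]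
    congr 1
    push_cast
    ring
  rw [h9]
  have h10 : 0 < (4 * π) ^ ((d:ℝ) / 2) := by positivity
  have h11 : 0 < π ^ ((d:ℝ) / 2) := by positivity
  field_simp

/-- The pointwise Young inequality. -/
lemma young' {K : ℝ} (hK : 0 < K) (d : ℕ) (hd : 1 ≤ d) {a ρ : ℝ} (ha : 0 ≤ a) (hρ : 0 ≤ ρ) :
    a * ρ ≤ K * ρ ^ (1 + 2 / (d:ℝ)) + LK K d * a ^ (1 + (d:ℝ) / 2) := by
  have hd0 : (0:ℝ) < d := by exact_mod_cast hd
  set p : ℝ := 1 + 2 / (d:ℝ) with hp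
  set q : ℝ := 1 + (d:ℝ) / 2 with hq
  have hp0 : 0 < p := by positivity
  have hq0 : 0 < q := by positivity
  have hpq : p.HolderConjugate q := by
    rw [Real.holderConjugate_iff]
    refine ⟨by rw [hp]; linarith [div_pos (by norm_num : (0:ℝ) < 2) hd0], ?_⟩
    rw [hp, hq]
    field_simp
    ring
  set c : ℝ := (p * K) ^ (1 / p) with hc
  have hpK : 0 < p * K := by positivity
  have hc0 : 0 < c := by positivity
  have h1 := Real.young_inequality_of_nonneg (a := c * ρ) (b := a / c) (by positivity)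
    (by positivity) hpq
  have e1 : c * ρ * (a / c) = a * ρ := by field_simp
  have e2 : (c * ρ) ^ p / p = K * ρ ^ p := by
    rw [Real.mul_rpow hc0.le hρ, hc, ← Real.rpow_mul hpK.le, one_div_mul_cancel hp0.ne',
      Real.rpow_one]
    field_simp
  have e3 : (a / c) ^ q / q = LK K d * a ^ q := by
    rw [Real.div_rpow ha hc0.le, hc, ← Real.rpow_mul hpK.le]
    have h2 : 1 / p * q = (d:ℝ) / 2 := by
      rw [hp, hq]; field_simp
      ring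
    rw [h2]
    unfold LK
    have h3 : ((d:ℝ) + 2) / d * K = p * K := by
      rw [hp]; field_simp
    rw [h3, Real.rpow_neg hpK.le]
    have h4 : q = (d + 2) / 2 := by rw [hq]; ring
    have h5 : 0 < (p * K) ^ ((d:ℝ) / 2) := by positivity
    rw [show (a ^ q / (p * K) ^ ((d:ℝ) / 2) / q) =
      1 / q * ((p * K) ^ ((d:ℝ) / 2))⁻¹ * a ^ q by field_simp]
    rw [show 1 / q = 2 / ((d:ℝ) + 2) by rw [h4]; field_simp]
  rw [e1, e2, e3] at h1
  exact h1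

/-- The eigenvalue sum bound for an orthonormal family. -/
theorem family_bound' {K : ℝ} (hK : 0 < K) (d : ℕ) (hd : 1 ≤ d) {N : ℕ}
    (u : Fin N → (Fin d → ℝ) → ℂ)
    (g : Fin N → Fin d → (Fin d → ℝ) → ℂ) (hs : ∀ n, WGradC (u n) (g n))
    (hfin : Integrable (fun x => (∑ i, ‖u i x‖ ^ 2) ^ (1 + 2 / (d:ℝ))) ∧
      K * ∫ x, (∑ i, ‖u i x‖ ^ 2) ^ (1 + 2 / (d:ℝ)) ≤ ∑ i, ∑ k, ∫ x, ‖g i k x‖ ^ 2)
    (V : (Fin d → ℝ) → ℝ) (hV : Adm d V) :
    -(∑ n, ((∫ x, ∑ k, ‖g n k x‖ ^ 2) + ∫ x, V x * ‖u n x‖ ^ 2)) ≤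
      LK K d * ∫ x, (max (-V x) 0) ^ (1 + (d:ℝ) / 2) := by
  obtain ⟨hρ3, hsharp⟩ := hfin
  set ρ : (Fin d → ℝ) → ℝ := fun x => ∑ n, ‖u n x‖ ^ 2 with hρ
  have hρ0 : ∀ x, 0 ≤ ρ x := fun x => Finset.sum_nonneg fun n _ => sq_nonneg _
  have hVn : ∀ n, Integrable (fun x => V x * ‖u n x‖ ^ 2) volume :=
    fun n => hV.int _ _ (hs n)
  have hVρ : Integrable (fun x => V x * ρ x) volume := by
    have := integrable_finsetSum Finset.univ fun n _ => hVn n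
    refine this.congr (Eventually.of_forall fun x => ?_)
    simp only [hρ, Finset.mul_sum]
  have hsum : ∑ n, ∫ x, V x * ‖u n x‖ ^ 2 = ∫ x, V x * ρ x := by
    rw [← integral_finsetSum _ fun n _ => hVn n]
    congr 1
    funext x
    rw [hρ, Finset.mul_sum]
  have hkin : ∀ n, ∫ x, ∑ k, ‖g n k x‖ ^ 2 = ∑ k, ∫ x, ‖g n k x‖ ^ 2 := by
    intro n
    rw [integral_finsetSum _ fun k _ => int_sq ((hs n).g2 k)]
  rw [Finset.sum_add_distrib, hsum]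
  simp only [hkin]
  have hpt : ∀ x, -(V x * ρ x) ≤ K * ρ x ^ (1 + 2 / (d:ℝ)) +
      LK K d * (max (-V x) 0) ^ (1 + (d:ℝ) / 2) := by
    intro x
    have h1 := young' hK d hd (a := max (-V x) 0) (ρ := ρ x) (le_max_right _ _) (hρ0 x)
    have h2 : -(V x * ρ x) ≤ max (-V x) 0 * ρ x := by
      rw [← neg_mul]
      exact mul_le_mul_of_nonneg_right (le_max_left _ _) (hρ0 x)
    exact h2.trans h1
  have e1 : ∫ x, (K * ρ x ^ (1 + 2 / (d:ℝ)) + LK K d * (max (-V x) 0) ^ (1 + (d:ℝ) / 2)) =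
      K * (∫ x, ρ x ^ (1 + 2 / (d:ℝ))) + LK K d * ∫ x, (max (-V x) 0) ^ (1 + (d:ℝ) / 2) := by
    rw [← integral_const_mul, ← integral_const_mul]
    exact integral_add (hρ3.const_mul K) (hV.neg.const_mul (LK K d))
  have hint : ∫ x, -(V x * ρ x) ≤
      ∫ x, (K * ρ x ^ (1 + 2 / (d:ℝ)) + LK K d * (max (-V x) 0) ^ (1 + (d:ℝ) / 2)) :=
    integral_mono hVρ.neg ((hρ3.const_mul K).add (hV.neg.const_mul (LK K d))) hpt
  rw [integral_neg, e1] at hint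
  have hsharp' : K * ∫ x, ρ x ^ (1 + 2 / (d:ℝ)) ≤ ∑ i, ∑ k, ∫ x, ‖g i k x‖ ^ 2 := hsharp
  linarith

/-- The `(n + 1)`-th min-max value of the form of `-Δ + V` on the functions in `H¹` with `P`. -/
noncomputable def mmP {d : ℕ} (P : ((Fin d → ℝ) → ℂ) → Prop) (V : (Fin d → ℝ) → ℝ) (n : ℕ) : ℝ :=
  sInf {lam : ℝ | ∃ W : Submodule ℂ (Lp ℂ 2 (volume : Measure (Fin d → ℝ))),
    Module.finrank ℂ W = n + 1 ∧ ∀ u ∈ W, P u ∧ ∃ g : Fin d → (Fin d → ℝ) → ℂ, WGradC u g ∧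
      (∫ x, ∑ k, ‖g k x‖ ^ 2) + ∫ x, V x * ‖u x‖ ^ 2 ≤ lam * ∫ x, ‖u x‖ ^ 2}

theorem bddBelowP (d : ℕ) (hd : 1 ≤ d) (P : ((Fin d → ℝ) → ℂ) → Prop) (V : (Fin d → ℝ) → ℝ)
    (hV : Adm d V) (n : ℕ) :
    BddBelow {lam : ℝ | ∃ W : Submodule ℂ (Lp ℂ 2 (volume : Measure (Fin d → ℝ))),
    Module.finrank ℂ W = n + 1 ∧ ∀ u ∈ W, P u ∧ ∃ g : Fin d → (Fin d → ℝ) → ℂ, WGradC u g ∧
      (∫ x, ∑ k, ‖g k x‖ ^ 2) + ∫ x, V x * ‖u x‖ ^ 2 ≤ lam * ∫ x, ‖u x‖ ^ 2} := by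
  refine (bddBelow d hd V hV n).mono ?_
  rintro lam ⟨W, hW, hW2⟩
  exact ⟨W, hW, fun u hu => (hW2 u hu).2⟩

/-- The kinetic inequality with the constant `K` for all orthonormal systems of functions
with `P`. -/
def KinP {d : ℕ} (P : ((Fin d → ℝ) → ℂ) → Prop) (K : ℝ) : Prop :=
  ∀ (N : ℕ) (u : Fin N → (Fin d → ℝ) → ℂ) (g : Fin N → Fin d → (Fin d → ℝ) → ℂ),
    (∀ n, WGradC (u n) (g n)) →
    (∀ n m, ∫ x, (starRingEnd ℂ) (u n x) * u m x = if n = m then 1 else 0) → (∀ n, P (u n)) →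
    Integrable (fun x => (∑ i, ‖u i x‖ ^ 2) ^ (1 + 2 / (d:ℝ))) ∧
      K * ∫ x, (∑ i, ‖u i x‖ ^ 2) ^ (1 + 2 / (d:ℝ)) ≤ ∑ i, ∑ k, ∫ x, ‖g i k x‖ ^ 2

/-- The sum of the absolute values of the negative min-max values. -/
theorem mmP_bound {K : ℝ} (hK : 0 < K) (d : ℕ) (hd : 1 ≤ d) (P : ((Fin d → ℝ) → ℂ) → Prop)
    (hkin : KinP P K) (V : (Fin d → ℝ) → ℝ) (hV : Adm d V) (N : ℕ) :
    ∑ n ∈ Finset.range N, max (-mmP P V n) 0 ≤
      LK K d * ∫ x, (max (-V x) 0) ^ (1 + (d:ℝ) / 2) := by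
  classical
  set J : Finset ℕ := (Finset.range N).filter fun n => mmP P V n < 0 with hJ
  refine le_of_forall_pos_le_add fun ε hε => ?_
  set δ : ℝ := ε / (N + 1) with hδ
  have hδ0 : 0 < δ := by positivity
  have hex : ∀ n ∈ J, ∃ lam, lam < mmP P V n + δ ∧
      ∃ W : Submodule ℂ (Lp ℂ 2 (volume : Measure (Fin d → ℝ))),
      Module.finrank ℂ W = n + 1 ∧ ∀ u ∈ W, P u ∧ ∃ g : Fin d → (Fin d → ℝ) → ℂ, WGradC u g ∧
      (∫ x, ∑ k, ‖g k x‖ ^ 2) + ∫ x, V x * ‖u x‖ ^ 2 ≤ lam * ∫ x, ‖u x‖ ^ 2 := by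
    intro n hn
    have hneg : mmP P V n < 0 := (Finset.mem_filter.1 hn).2
    have hne : {lam : ℝ | ∃ W : Submodule ℂ (Lp ℂ 2 (volume : Measure (Fin d → ℝ))),
        Module.finrank ℂ W = n + 1 ∧ ∀ u ∈ W, P u ∧
        ∃ g : Fin d → (Fin d → ℝ) → ℂ, WGradC u g ∧
        (∫ x, ∑ k, ‖g k x‖ ^ 2) + ∫ x, V x * ‖u x‖ ^ 2 ≤ lam * ∫ x, ‖u x‖ ^ 2}.Nonempty := by
      by_contra hemp
      rw [not_nonempty_iff_eq_empty] at hemp
      rw [mmP, hemp, Real.sInf_empty] at hneg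
      exact lt_irrefl _ hneg
    obtain ⟨lam, hlam, hlt⟩ := exists_lt_of_csInf_lt hne
      (show sInf _ < mmP P V n + δ by rw [← mmP]; linarith)
    exact ⟨lam, hlt, hlam⟩
  choose! lam hlam W hWf hW using hex
  obtain ⟨u, huW, huo⟩ := exists_orthonormal J W hWf N
  have hlt : ∀ n ∈ J, n < N := fun n hn => Finset.mem_range.1 (Finset.mem_filter.1 hn).1
  have hP : ∀ n ∈ J, P (u n) := fun n hn => (hW n hn _ (huW n hn (hlt n hn))).1
  have hg : ∀ n ∈ J, ∃ g : Fin d → (Fin d → ℝ) → ℂ, WGradC (u n) g ∧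
      (∫ x, ∑ k, ‖g k x‖ ^ 2) + ∫ x, V x * ‖u n x‖ ^ 2 ≤ lam n * ∫ x, ‖u n x‖ ^ 2 :=
    fun n hn => (hW n hn _ (huW n hn (hlt n hn))).2
  choose! g hgS hgQ using hg
  have hunit : ∀ n ∈ J, ∫ x, ‖u n x‖ ^ 2 = 1 := by
    intro n hn
    have h1 := huo n hn n hn (hlt n hn) (hlt n hn)
    rw [if_pos rfl] at h1
    exact lp_unit h1
  set e := J.equivFin with he
  have horth : ∀ i j : Fin J.card, ∫ x, (starRingEnd ℂ) (u (e.symm i) x) * u (e.symm j) x =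
      if i = j then 1 else 0 := by
    intro i j
    rw [← lp_inner, huo _ (e.symm i).2 _ (e.symm j).2 (hlt _ (e.symm i).2)
      (hlt _ (e.symm j).2)]
    simp only [Subtype.val_inj, EmbeddingLike.apply_eq_iff_eq]
  have hfam := family_bound' hK d hd (fun i : Fin J.card => (u (e.symm i) : (Fin d → ℝ) → ℂ))
    (fun i => g (e.symm i))
    (fun i => hgS _ (e.symm i).2) (hkin J.card _ _ (fun i => hgS _ (e.symm i).2) horth
      (fun i => hP _ (e.symm i).2)) V hV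
  have hsumJ : ∑ i : Fin J.card, ((∫ x, ∑ k, ‖g (e.symm i) k x‖ ^ 2) +
      ∫ x, V x * ‖u (e.symm i) x‖ ^ 2) =
      ∑ n ∈ J, ((∫ x, ∑ k, ‖g n k x‖ ^ 2) + ∫ x, V x * ‖u n x‖ ^ 2) := by
    rw [← Finset.sum_coe_sort J]
    exact Equiv.sum_comp e.symm
      (fun n : J => (∫ x, ∑ k, ‖g n k x‖ ^ 2) + ∫ x, V x * ‖u n x‖ ^ 2)
  rw [hsumJ] at hfam
  have h1 : ∑ n ∈ Finset.range N, max (-mmP P V n) 0 = ∑ n ∈ J, -mmP P V n := by
    rw [hJ, Finset.sum_filter]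
    refine Finset.sum_congr rfl fun n _ => ?_
    by_cases hn : mmP P V n < 0
    · rw [if_pos hn, max_eq_left (by linarith)]
    · rw [if_neg hn, max_eq_right (by linarith)]
  rw [h1]
  have h2 : ∑ n ∈ J, ((∫ x, ∑ k, ‖g n k x‖ ^ 2) + ∫ x, V x * ‖u n x‖ ^ 2) ≤
      ∑ n ∈ J, (mmP P V n + δ) := by
    refine Finset.sum_le_sum fun n hn => ?_
    have h3 := hgQ n hn
    rw [hunit n hn, mul_one] at h3
    exact h3.trans (hlam n hn).le
  have hcard : (J.card : ℝ) ≤ N := by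
    have : J.card ≤ (Finset.range N).card := Finset.card_filter_le _ _
    rw [Finset.card_range] at this
    exact_mod_cast this
  have h2' : ∑ n ∈ J, (mmP P V n + δ) = (∑ n ∈ J, mmP P V n) + (J.card : ℝ) * δ := by
    rw [Finset.sum_add_distrib, Finset.sum_const, nsmul_eq_mul]
  rw [h2'] at h2
  rw [Finset.sum_neg_distrib]
  have h4 : (J.card : ℝ) * δ ≤ ε := by
    calc (J.card : ℝ) * δ ≤ N * δ := mul_le_mul_of_nonneg_right hcard hδ0.le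
      _ ≤ (N + 1) * δ := mul_le_mul_of_nonneg_right (by linarith) hδ0.le
      _ = ε := by rw [hδ]; field_simp
  linarith

/-- Comparison of the min-max values with those of the shifted potential. -/
lemma mmP_shift {d : ℕ} (hd : 1 ≤ d) (P : ((Fin d → ℝ) → ℂ) → Prop) {γ : ℝ} (hγ : 1 ≤ γ)
    {V : (Fin d → ℝ) → ℝ}
    (hV : MemLp V (ENNReal.ofReal (γ + (d:ℝ) / 2))) {τ : ℝ} (hτ : 0 < τ) (n : ℕ) :
    max (max (-mmP P V n) 0 - τ) 0 ≤ max (-mmP P (sh V τ) n) 0 := by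
  by_cases hneg : mmP P V n < 0
  · have hne : {lam : ℝ | ∃ W : Submodule ℂ (Lp ℂ 2 (volume : Measure (Fin d → ℝ))),
        Module.finrank ℂ W = n + 1 ∧ ∀ u ∈ W, P u ∧
        ∃ g : Fin d → (Fin d → ℝ) → ℂ, WGradC u g ∧
        (∫ x, ∑ k, ‖g k x‖ ^ 2) + ∫ x, V x * ‖u x‖ ^ 2 ≤ lam * ∫ x, ‖u x‖ ^ 2}.Nonempty := by
      by_contra hemp
      rw [not_nonempty_iff_eq_empty] at hemp
      rw [mmP, hemp, Real.sInf_empty] at hneg
      exact lt_irrefl _ hneg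
    have hadm := sh_adm hd hγ hV hτ
    have h1 : mmP P (sh V τ) n - τ ≤ mmP P V n := by
      refine le_csInf hne ?_
      rintro lam ⟨W, hW, hW2⟩
      rw [sub_le_iff_le_add]
      refine csInf_le (bddBelowP d hd P _ hadm n) ⟨W, hW, fun u hu => ?_⟩
      obtain ⟨hPu, g, hg, hq⟩ := hW2 u hu
      refine ⟨hPu, g, hg, ?_⟩
      have h2 := hadm.int _ _ hg
      have h3 := int_mul hd hγ hV hV.1 (fun x => le_rfl) hg
      have h4 := (int_sq hg.f2).const_mul τ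
      have h5 : ∫ x, sh V τ x * ‖u x‖ ^ 2 ≤ ∫ x, (V x * ‖u x‖ ^ 2 + τ * ‖u x‖ ^ 2) := by
        refine integral_mono h2 (h3.add h4) fun x => ?_
        simp only
        rw [← add_mul]
        refine mul_le_mul_of_nonneg_right ?_ (sq_nonneg _)
        unfold sh
        have := le_max_left (-V x - τ) 0
        linarith
      have h6 : ∫ x, (V x * ‖u x‖ ^ 2 + τ * ‖u x‖ ^ 2) =
          (∫ x, V x * ‖u x‖ ^ 2) + τ * ∫ x, ‖u x‖ ^ 2 := by
        rw [← integral_const_mul]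
        exact integral_add h3 h4
      rw [h6] at h5
      rw [add_mul]
      linarith
    refine max_le ?_ (le_max_right _ _)
    rw [max_eq_left (by linarith : (0:ℝ) ≤ -mmP P V n)]
    refine le_trans ?_ (le_max_left _ _)
    linarith
  · rw [not_lt] at hneg
    rw [max_eq_right (by linarith : -mmP P V n ≤ (0:ℝ)),
      max_eq_right (by linarith : (0:ℝ) - τ ≤ 0)]
    exact le_max_right _ _

end Pool.Agent.U280.SM
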